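import Pool.Agent.Run7.h821.GfJ

/-!
# Viehweg's inequality for the fibrations of the images of fibrations by curves

Let `V` be a smooth projective variety over `ℂ` of dimension `n + 1` and let `V ⇢ X` be a fibration by
curves; the curves are arbitrary and may vary in moduli as much as possible. Suppose that `X` is given
as the image of `V` in a product of varieties `X 0 × ... × X (k - 1)`, and let `𝓛 i` be linear systems
on the `X i` (linear systems of line bundles `L i`; in this file `H i` is the set of the quotients of
their sections by a fixed one). Suppose that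

* there are as many forms `ω j`, sections of `K_V - ∑ L i`, linearly independent over the function
  field of `X`, as the genus of the curves.

Let `V ⇢ W` be any dominant rational map of finite degree. It need not be related to the fibration,
and its ramification is arbitrary. Let `W_i` be the image of `V` in `W × X 0 × ... × X (i - 1)`. A
point of `W_i` has `d i` points of `X i` below it, i.e. such that `V` has a point with these images in
`W_i` and `X i`. The condition is

* (Two) the points of `X i` below two points of `W_i` impose independent conditions on `𝓛 i`.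

Criteria: `𝓛 i` separates `2 d i` points; or `𝓛 i` contains all forms of degree `2 ρ i + 1` in
coordinates `1, t 1, ..., t m` of `X i`, where `ρ i` is the regularity index of the points below one
point of `W_i`, i.e. all functions on them are polynomials of degree at most `ρ i` in the `t j`. One
has `ρ i ≤ d i - 1`, with equality only for points on a line.

**Theorem.** Let `f : W ⇢ Y` be any dominant rational map with `κ(Y) ≥ 0` and generic fibre `F` with
`κ(F) ≥ q ≥ 0`; it has nothing to do with `V ⇢ X`. Then `κ(W) ≥ min (q + dim Y, dim W - 1)`. If
`q < dim F` or `κ(Y) = dim Y` then `κ(W) ≥ q + dim Y`.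

So if `F` is not of general type then `κ(W) ≥ κ(F) + dim Y ≥ κ(F) + max (κ(Y), Var(f))`, since the
variation `Var(f)` is at most `dim Y`; this is Viehweg's inequality. If `F` is of general type then it
is a theorem of Kollár, which is not formalised here; the bound `κ(W) ≥ dim W - 1` is part of the
theorem, and gives the inequality if also `Var(f) < dim Y`. It is not supposed that `F` has a good
minimal model, and there is no assumption on the base `Y` except for `κ(Y) ≥ 0`.

Proof. Let `W'` be the image of `V` in `W × X`, fibred over `X` by images of the curves, of geometric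
genus `γ`. The traces of the forms `ω j` generate the regular differentials of these images. If
`γ = 0` then `W` is uniruled; then `K_F` is not pseudo-effective if `κ(Y) ≥ 0` (starting file
`R882/UC`). If `γ ≥ 1` then the traces of the forms `s 0 ... s (k - 1) ω j`, `s i ∈ 𝓛 i`, show that
the image of the canonical map of `W` has dimension at least `dim W - 1`, and that `W` is of general
type if `γ ≥ 2`. It remains to see that `Y` and `F` are not both of general type if `γ = 1`: the map
from the curves of genus one in `W'` to `Y` would be constant, so that they would be in the fibres of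
`W' ⇢ Y`, and the numerical dimension of these fibres, which are finite covers of `F`, would be less
than their dimension.

The function-field language of the starting repository is used: `K`, `L` and `F i` are the function
fields of `V`, `W` and `X i`, and `Y` is the function field of `Y`, a subfield of `L`; the generic
fibre `F` has the function field `L` over the field `Y`. `KodGe k K w _ h` says that `κ ≥ h` for the
varieties of dimension `w` over `k` with the function field `K` (with empty boundary).
-/

set_option autoImplicit false
set_option linter.overlappingInstances false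
set_option maxHeartbeats 4000000
set_option synthInstance.maxHeartbeats 400000

open FF Module IntermediateField Pool.Agent Pool.Agent.W602.GT

namespace Pool.Agent.Results.MP_5c318e_ag.ImagesOfCurveFibrations

section

variable {K : Type} [Field K] [Algebra ℂ K] {L : Type} [Field L] [Algebra ℂ L] [Algebra L K]
  [IsScalarTower ℂ L K]

/-- Let `K` be the function field of a variety `V`, and let `M` and `E` be the function fields of
varieties `W_i` and `X_i` which are dominated by `V`. The points of `X_i` below the (generic) point
`α` of `W_i`, with coordinates in the field `Ω`: there is a point `τ` of `V` with the image `α` in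
`W_i` and the image `σ` in `X_i`. -/
def Below (M : IntermediateField L K) (E : IntermediateField ℂ K) {Ω : Type} [Field Ω]
    [Algebra ℂ Ω] (α : M →ₐ[ℂ] Ω) : Set (E →ₐ[ℂ] Ω) :=
  {σ | ∃ τ : K →ₐ[ℂ] Ω, (∀ z : M, τ z = α z) ∧ ∀ z : E, τ z = σ z}

/-- (Two) The points of `X_i` below two points of `W_i` impose independent conditions on the linear
system `H`: a relation `∑ c σ * σ f = 0` for all `f ∈ H` is trivial. -/
def TwoFibres (M : IntermediateField L K) (E : IntermediateField ℂ K) (H : Set E) : Prop :=
  ∀ (Ω : Type) [Field Ω] [Algebra ℂ Ω] [IsAlgClosed Ω] (α β : M →ₐ[ℂ] Ω)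
    (A : Finset (E →ₐ[ℂ] Ω)), (∀ σ ∈ A, σ ∈ Below M E α ∨ σ ∈ Below M E β) →
    ∀ c : (E →ₐ[ℂ] Ω) → Ω, (∀ f ∈ H, ∑ σ ∈ A, c σ * σ f = 0) → ∀ σ ∈ A, c σ = 0

/-- The linear system `H` on the variety with the function field `E` separates `r` points: at most
`r` different points impose independent conditions. -/
def SeparatesPoints (E : IntermediateField ℂ K) (H : Set E) (r : ℕ) : Prop :=
  ∀ (Ω : Type) [Field Ω] [Algebra ℂ Ω] [IsAlgClosed Ω] (A : Finset (E →ₐ[ℂ] Ω)), A.card ≤ r →
    ∀ c : (E →ₐ[ℂ] Ω) → Ω, (∀ f ∈ H, ∑ σ ∈ A, c σ * σ f = 0) → ∀ σ ∈ A, c σ = 0

/-- The functions `t j` generate the function field `E`, and the regularity index of the points below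
a point of the variety with the function field `M` is at most `ρ`: the functions on the
compositum are polynomials of degree at most `ρ` in the `t j`, with coefficients in `M`. -/
def RegularityLe (M : IntermediateField L K) (E : IntermediateField ℂ K) {m : ℕ} (t : Fin m → E)
    (ρ : ℕ) : Prop :=
  IntermediateField.adjoin ℂ (Set.range t) = ⊤ ∧
    ∀ z ∈ IntermediateField.adjoin M (E : Set K), ∃ p : MvPolynomial (Fin m) M,
      p.totalDegree ≤ ρ ∧ MvPolynomial.aeval (fun j => (t j : K)) p = z

/-- The number of the points of `X_i` below a point of `W_i`: the degree over `M` of the compositum. -/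
noncomputable def deg (M : IntermediateField L K) (E : IntermediateField ℂ K) : ℕ :=
  finrank M (IntermediateField.adjoin M (E : Set K))

/-- The linear system `H` contains all forms of degree `D` in the coordinates `1, t`. -/
def AllForms {E : IntermediateField ℂ K} {m : ℕ} (t : Fin m → E) (D : ℕ) (H : Set E) : Prop :=
  ∀ a : Fin m → ℕ, ∑ j, a j ≤ D → ∏ j, t j ^ a j ∈ H

/-- (Two), or one of the criteria for it. -/
def ConditionTwo (M : IntermediateField L K) (E : IntermediateField ℂ K) (H : Set E) : Prop :=
  TwoFibres M E H ∨ SeparatesPoints E H (2 * deg M E) ∨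
    ∃ (m : ℕ) (t : Fin m → E) (ρ : ℕ), RegularityLe M E t ρ ∧ AllForms t (2 * ρ + 1) H

end

/-- The geometric genus of the varieties of dimension `w` over `k` with the function field `K` is at
most `g`: any `g + 1` canonical forms which are regular at all prime divisors are linearly
dependent over `k`. -/
def GenusLe (k K : Type) [Field k] [Field K] [Algebra k K] (w g : ℕ) : Prop :=
  ∀ ω : Fin (g + 1) → (Fin w → Derivation k K K) → K, (∀ j, IsPluri 1 (ω j)) →
    (∀ j (P : Place k K), Divisorial w P → RegAt P (ω j)) →
    ∃ c : Fin (g + 1) → k, c ≠ 0 ∧ ∀ D, ∑ j, algebraMap k K (c j) * ω j D = 0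

section

variable {K : Type} [Field K] [Algebra ℂ K]

/-- Let `B` and `K` be the function fields of `X` and of a variety which is fibred over `X` by
curves. The genus of the geometric generic fibre is at most `g`. The function field of the geometric
generic fibre is the field generated by `K` over the algebraic closure of `B`. -/
def FibreGenusLe (B : IntermediateField ℂ K) (g : ℕ) : Prop :=
  GenusLe (algebraicClosure B (AlgebraicClosure K))
    (IntermediateField.adjoin (algebraicClosure B (AlgebraicClosure K))
      (algebraMap K (AlgebraicClosure K) '' (⊤ : IntermediateField ℂ K))) 1 g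

variable {k : ℕ}

/-- The form `ω` is a section of `K_V - ∑ L i`: its products with sections of the linear systems are
regular at all prime divisors. -/
def IsTwisted {F : Fin k → IntermediateField ℂ K} (H : ∀ i, Set (F i)) (N : ℕ)
    (ω : (Fin N → Derivation ℂ K K) → K) : Prop :=
  IsPluri 1 ω ∧ ∀ f : ∀ i, F i, (∀ i, f i ∈ H i) → ∀ P : Place ℂ K, Divisorial N P →
    RegAt P (fun D => (∏ i, (f i : K)) * ω D)

/-- The function field of the image `X` of `V` in the product of the `X i`. -/
noncomputable def Base (F : Fin k → IntermediateField ℂ K) : IntermediateField ℂ K := ⨆ i, F i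

/-- The function field of the image `W_i` of `V` in the product of `W` and `X 0, ..., X (i - 1)`. -/
noncomputable def Img (F : Fin k → IntermediateField ℂ K) (L : Type) [Field L] [Algebra L K]
    (i : ℕ) : IntermediateField L K :=
  IntermediateField.adjoin L {z | ∃ l : Fin k, l.val < i ∧ z ∈ F l}

theorem img_eq (F : Fin k → IntermediateField ℂ K) (L : Type) [Field L] [Algebra L K] (i : ℕ) :
    N145.PC.MF F L (N145.PC.Js k i) = Img F L i := by
  unfold N145.PC.MF N145.PC.MJ Img
  congr 1
  ext z
  simp only [Set.mem_iUnion, N145.PC.mem_Js, Set.mem_range, exists_prop]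
  constructor
  · rintro ⟨l, hl, z, rfl⟩
    exact ⟨l, hl, z.2⟩
  · rintro ⟨l, hl, hz⟩
    exact ⟨l, hl, ⟨z, hz⟩, rfl⟩

end

/-- **Viehweg's inequality for the fibrations of the images of fibrations by curves.** Let `K` be the
function field of a variety `V` of dimension `n + 1`, let `F i`, `i < k`, be the function fields of
varieties `X i` which are dominated by `V`, such that the image `X` of `V` in the product of the `X i`
has dimension `n` and its function field is algebraically closed in `K`. Let `H i` be linear systems
on the `X i`, let the genus of the geometric generic fibre of `V ⇢ X` be at most `r`, and let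
`ω 1, ..., ω r` be sections of `K_V - ∑ L i` which are linearly independent over the function field of
`X`. Let `L ⊆ K` be the function field of a variety `W`, let the extension be finite, and let (Two)
hold for all `i`.

Let `Y ⊆ L` be the function field of a variety of dimension `d` with `κ ≥ 0`; it is dominated by `W`,
and the generic fibre, of dimension `f`, has the function field `L` over `Y`. Let `κ ≥ q` for the
generic fibre. Then `κ(W) ≥ min (q + d, n)`. If `q < f`, or if `κ ≥ d` for `Y`, then
`κ(W) ≥ q + d`. -/
theorem result {K : Type} [Field K] [Algebra ℂ K] [Algebra.EssFiniteType ℂ K] {n k r : ℕ}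
    (hK : Algebra.trdeg ℂ K = (n + 1 : ℕ)) (F : Fin k → IntermediateField ℂ K)
    (hb : Algebra.trdeg ℂ (Base F) = n) (hcl : ∀ z : K, IsAlgebraic (Base F) z → z ∈ Base F)
    (H : ∀ i, Set (F i)) (hH : ∀ i, 1 ∈ H i) (hr : FibreGenusLe (Base F) r)
    (ω : Fin r → (Fin (n + 1) → Derivation ℂ K K) → K) (hω : ∀ j, IsTwisted H (n + 1) (ω j))
    (hind : ∀ b : Fin r → Base F, (∀ D, ∑ j, (b j : K) * ω j D = 0) → b = 0)
    (L : Type) [Field L] [Algebra ℂ L] [Algebra L K] [IsScalarTower ℂ L K]
    [FiniteDimensional L K] (hT : ∀ i : Fin k, ConditionTwo (Img F L i) (F i) (H i))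
    (Y : IntermediateField ℂ L) {d f q : ℕ} (hd : Algebra.trdeg ℂ Y = d)
    (hf : Algebra.trdeg Y L = f) (hY : KodGe ℂ Y d (fun _ => False) 0)
    (hF : KodGe Y L f (fun _ => False) q) :
    KodGe ℂ L (n + 1) (fun _ => False) (min (q + d) n) ∧
      (q < f ∨ KodGe ℂ Y d (fun _ => False) d → KodGe ℂ L (n + 1) (fun _ => False) (q + d)) := by
  classical
  have hL : Algebra.trdeg ℂ L = (n + 1 : ℕ) := Pool.Agent.Y184.NT.trdeg_below (K := K) hK
  have hdf : d + f = n + 1 := by
    have h7 := trdeg_add_eq ℂ Y (A := L)
    rw [hd, hf, hL] at h7
    exact_mod_cast h7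
  have hreg : ∀ j (P : Place ℂ K), Divisorial (n + 1) P → RegAt P (ω j) := by
    intro j P hP D hD
    have h1 := (hω j).2 (fun _ => 1) hH P hP D hD
    simpa using h1
  obtain ⟨-, h2⟩ := _root_.Run7.h821.curves_fib (L := L) hK (F := F) (H := H)
    (B := Base F) rfl hb hcl hr hω hreg hind Y hd hf hY
  obtain ⟨h3, h4⟩ := h2 (fun i => by
    rw [img_eq]
    rcases hT i with h | h | ⟨m, t, ρ, h, h'⟩
    · exact h
    · exact _root_.Run7.h821.two_of_sep le_rfl h
    · exact _root_.Run7.h821.two_of_reg h.2 h.1 h')
  have h5 : KodGe ℂ L (n + 1) (fun _ => False) n := N145.SX.kodGe_of_canGe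
    (h3 (psef_of_kodGe (_root_.Run7.h72.kodGe_mono (Nat.zero_le q) hF)))
  refine ⟨_root_.Run7.h72.kodGe_mono (Nat.min_le_right _ _) h5, ?_⟩
  rintro (hq | hq)
  · exact _root_.Run7.h72.kodGe_mono (by omega) h5
  · exact h4 q d hF hq

end Pool.Agent.Results.MP_5c318e_ag.ImagesOfCurveFibrations
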