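import Pool.Agent.Run7.h72.Iit

/-!
# Viehweg's inequality for all fibrations of the images of the product of a variety and a curve

Let `X` be a smooth projective variety over `ℂ` of dimension `n` and `C` a smooth projective curve of
any genus. Let `X × C ⇢ W` be a dominant rational map of finite degree to a variety `W`. It need not be
related to the product structure, and it need not be the quotient by a group. Let `d` be the number of
different points of `X` below a general fibre of `X × C ⇢ W`, i.e. the degree over `W` of the image of
`X × C` in `W × X`; it is at most the degree of `X × C ⇢ W`, which may be arbitrarily large.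

Suppose that `N K_X - M H` is effective, where `H` is a linear system which defines a birational map
(or at least separates the points of `X` below a general fibre), and `M > 2 N (d - 1)`. More generally
one can use linear systems `H i` on `X` which separate these points one after the other: then `d` is
replaced by the degrees `d i` of the steps, `N K_X - ∑ M i H i` is effective and `M i > 2 N (d i - 1)`.
Let `a` be the dimension of the image of `X` under the map given by the `H i`.

The theorem is about all fibrations `W → Y` (of smooth models; all rational maps `W ⇢ Y` onto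
varieties are allowed) with generic fibre `F` and `κ(Y) ≥ 0`. They are not related to `X` and `C`.

* If `κ(F) + dim Y ≤ a` then `κ(W) ≥ κ(F) + dim Y`.
* If `a = n` (then `X` is of general type) then `κ(W) ≥ κ(F) + dim Y`, or `F` is of general type. If `F`
  is of general type then `κ(W) ≥ n = κ(F) + dim Y - 1`, and if `Y` is of general type too then
  `κ(W) = κ(F) + dim Y`.

As `κ(Y)` and the variation `Var` of `W → Y` are at most `dim Y`, the second part gives Viehweg's
inequality `κ(W) ≥ κ(F) + max (κ(Y), Var)` for all fibrations `W → Y` with `κ(Y) ≥ 0` whose fibres are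
not of general type; in fact with `dim Y` in the place of the maximum. The existence of a good minimal
model of `F` is not assumed. If `F` is of general type then the inequality is the theorem of Kollár,
which is not formalised.

Proof. See `MP_f72953_ag.ImagesOfTimesCurve`. By `MP_97d78d_ag.TrichotomyTimesCurve` (for `a = n`)
either `W` is uniruled or `κ(W) ≥ n`. If `κ(Y) ≥ 0` and `K_F` is pseudo-effective then `W` is not uniruled
(`Pool/Agent/R882`), so `κ(W) ≥ n = dim F + dim Y - 1 ≥ κ(F) + dim Y` if `F` is not of general type. If
`W` is not of general type then it has a fibration in rational or elliptic curves; if `Y` is of general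
type then these curves are in the fibres of `W → Y`, and `F` is not of general type.
-/

set_option autoImplicit false
set_option linter.overlappingInstances false
set_option maxHeartbeats 4000000
set_option synthInstance.maxHeartbeats 400000

open FF Module IntermediateField Pool.Agent Pool.Agent.W602.GT Run7.h72

namespace Pool.Agent.Results.MP_5c318e_ag.ImagesOfTimesCurve

/-- The Kodaira dimension of the smooth projective varieties of dimension `n` over `k` with the
function field `K` is at least `h`. -/
def KappaGe (k K : Type) [Field k] [Field K] [Algebra k K] (n h : ℕ) : Prop :=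
  KodGe k K n (fun _ => False) h

/-- **Viehweg's inequality for the images of `X × C`.** Let `K` be the function field of `X × C`, i.e. the
compositum of the function fields `E` of the variety `X` of dimension `n` and `C` of the curve, of
transcendence degree `n + 1`. Let `L ⊆ K` be the function field of a variety `W` such that the
extension is finite. Let `x i` (`i < c`) be families of rational functions on `X`, each containing `1`,
with `L(x 0, …, x (c - 1)) = L(E)`, let `L_i = L(x 0, …, x (i - 1))` (this is `Lv L x i`), and let `a` of
these functions be algebraically independent. Suppose that there are `N > 0`, `M i` and a nonzero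
`N`-canonical form `ψ` on `X` such that all products of `ψ` with `∏ (x i (f i)) ^ M i` are regular, and
`M i > 2 N ([L_{i + 1} : L_i] - 1)`. Let `W ⇢ Y` be a dominant rational map, given by the subfield `Y`
of `L`, with `κ(Y) ≥ 0` and `d = dim Y`, and `F` its generic fibre, a variety of dimension `f` over the
field `Y` with the function field `L`, and `κ(F) ≥ q ≥ 0`. Then `κ(W) ≥ min (q + d, a)`. If `a = n` and
`q < f` then `κ(W) ≥ q + d`. If `a = n` and `Y` is of general type then `κ(W) ≥ q + d`. -/
theorem result (K : Type) [Field K] [Algebra ℂ K] [Algebra.EssFiniteType ℂ K] (n : ℕ)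
    (E C : IntermediateField ℂ K) [Algebra.EssFiniteType ℂ E] [IsFF ℂ C] (hEC : E ⊔ C = ⊤)
    (hE : Algebra.trdeg ℂ E = n) (hK : Algebra.trdeg ℂ K = (n + 1 : ℕ)) (L : Type) [Field L]
    [Algebra ℂ L] [Algebra L K] [IsScalarTower ℂ L K] [FiniteDimensional L K] {c : ℕ}
    {m : Fin c → ℕ} (x : ∀ i, Fin (m i + 1) → E) (hx : ∀ i, x i 0 = 1)
    (hgen : Lv L (fun i b => (x i b : K)) c = IntermediateField.adjoin L (E : Set K)) {N : ℕ}
    (hN : 0 < N) (M : Fin c → ℕ)
    (hM : ∀ i : Fin c, 2 * N * (finrank L (Lv L (fun i b => (x i b : K)) (i + 1)) -
      finrank L (Lv L (fun i b => (x i b : K)) i)) <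
      M i * finrank L (Lv L (fun i b => (x i b : K)) i))
    {ψ : (Fin n → Derivation ℂ E E) → E} (hψ0 : ∃ D, ψ D ≠ 0)
    (hψ : ∀ f : ∀ i, Fin (m i + 1),
      LogSec ℂ E n N (fun _ => False) fun D => (∏ i, x i (f i) ^ M i) * ψ D)
    {a : ℕ} (s : Fin a → Σ i, Fin (m i + 1))
    (hs : AlgebraicIndependent ℂ fun l => x (s l).1 (s l).2)
    (Y : IntermediateField ℂ L) [Algebra.EssFiniteType ℂ Y] {d f q : ℕ}
    (hd : Algebra.trdeg ℂ Y = d) (hf : Algebra.trdeg Y L = f) (hY : KappaGe ℂ Y d 0)
    (hF : KappaGe Y L f q) :
    KappaGe ℂ L (n + 1) (min (q + d) a) ∧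
    (a = n → q < f → KappaGe ℂ L (n + 1) (q + d)) ∧
    (a = n → KappaGe ℂ Y d d → KappaGe ℂ L (n + 1) (q + d)) := by
  have hM' : ∀ i : Fin c, 2 * (finrank L (Lv L (fun i b => (x i b : K)) (i + 1)) -
      finrank L (Lv L (fun i b => (x i b : K)) i)) * N <
      M i * finrank L (Lv L (fun i b => (x i b : K)) i) := fun i => by
    have h1 := hM i
    have e1 : 2 * N * (finrank L (Lv L (fun i b => (x i b : K)) (i + 1)) -
        finrank L (Lv L (fun i b => (x i b : K)) i)) =
        2 * (finrank L (Lv L (fun i b => (x i b : K)) (i + 1)) -
        finrank L (Lv L (fun i b => (x i b : K)) i)) * N := by ring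
    rwa [e1] at h1
  have hL : Algebra.trdeg ℂ L = (n + 1 : ℕ) := Pool.Agent.Y184.NT.trdeg_below (K := K) hK
  have hdf : d + f = n + 1 := by
    have h3 := trdeg_add_eq ℂ Y (A := L)
    rw [hd, hf, hL] at h3
    exact_mod_cast h3
  have hY0 : CharZero Y := charZero_of_injective_algebraMap (algebraMap ℂ Y).injective
  have hp : Psef Y L f (fun _ => False) := psef_of_kodGe (kodGe_mono (Nat.zero_le q) hF)
  have h1 := psef_fib hEC hE hK x hx hgen hN M hM' hψ0 hψ s hs Y hd hf hY hp
  refine ⟨kodGe_mono (min_le_right _ _) h1, ?_, ?_⟩
  · rintro rfl hq
    exact kodGe_mono (by omega) h1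
  · rintro rfl hg
    exact (iitaka hEC hE hK x hx hgen hN M hM' hψ0 hψ s hs Y hd hf hY).2 q d hF hg

end Pool.Agent.Results.MP_5c318e_ag.ImagesOfTimesCurve
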