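import Pool.Agent.Run7.h260.TW.Prd
import Pool.Agent.R882.UC

/-!
# Viehweg's inequality for all fibrations of the images of towers

A tower of dimension `n` with the bound `s` (`Tower c n Base K s`) is a sequence of dominant rational
maps of finite degree `V = V_0 ⇢ V_1 ⇢ ... ⇢ V_k` between varieties of dimension `n` over `ℂ`. At the step
`V_i ⇢ V_(i + 1)`, of degree `b_i`, the canonical bundle of `V_i` is positive relative to `V_(i + 1)`
(`Positive`): `V_(i + 1)` is the image of `V_i` in a projective space, and for all varieties `Y'`,
`V_i ⇢ Y' ⇢ V_(i + 1)`, of degree `> 1` over `V_(i + 1)` there is a section of `K_(V_i) - m H` with a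
nonzero trace on `Y'`, where `s_i ≤ [V_i : Y'] (m + 1)`; for instance cyclic coverings of prime degree
branched along a sufficiently positive divisor. The bounds are `s_0 = s`, `s_(i + 1) = ⌊s_i / b_i⌋`. The
last variety `V_k`, with the bound `s_k`, is

* a smooth hypersurface of degree `d` in `ℙ^(n + 1)`, where for some `N` one has `d ≥ 7 N + n + 6`,
  `d > (n + 1) N`, `d > c (N + n - 1)` and `s_k < (N + 1) (d - n - N)`; or
* any variety with a generically finite map, of any degree, to a variety in `ℙ^(M + 1)` which is cut out
  by equations of degree at most `D` and has the regular canonical forms `P(x) ω₀` for all forms `P`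
  of degree `m`, for instance a smooth complete intersection of codimension at least two with
  `K = O(m)`; where for some `N` one has `m ≥ 7 N + 4`, `m + M + 2 > (M + 1) N`, `m + 2 ≥ D + N` and
  `s_k < (N + 1) (m + 2 - N)`; or
* any uniruled variety, without condition on `s_k`.

A product tower (`ProductTower c n K s`) is the same with other last varieties: besides those above,
`V_k` may be a product `X_0 × ... × X_(t - 1) × C` (`IsProduct`), where `C` is any smooth projective
curve, and each `X_i` has a number `g_i > s_k` and is either a curve of gonality at least `g_i` or a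
variety in projective `(M + 1)`-space cut out by equations of degree at most `D` with the regular
canonical forms `P(x) ω₀` for all forms `P` of degree `m`, `m ≥ 7 N + 4`, `(M + 1) N < m + M + 2`,
`D + N ≤ m + 2`, `g_i ≤ (N + 1) (m + 2 - N)` for some `N` (`Factor`); `t = 0` is allowed.

Let `V` be the first variety of such a tower, and let `V ⇢ W` be any dominant rational map of degree
`r`; nothing is assumed about the map (it need not be a quotient by a group and has no relation to the
tower). The theorem is about all fibrations `W → Y` (of smooth models; all rational maps `W ⇢ Y` onto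
varieties are allowed) with generic fibre `F` and `κ(Y) ≥ 0`. They are not related to the tower.

* If the tower has the bound `2 r` (and `c = 3`) then `κ(W) ≥ κ(F) + dim Y`; in fact `W` is of general type
  if `K_F` is pseudo-effective.
* If a product tower has the bound `2 r` then `κ(W) ≥ κ(F) + dim Y`, or `F` is of general type.

As `κ(Y)` and the variation `Var (W → Y)` are at most `dim Y`, this gives Viehweg's inequality
`κ(W) ≥ κ(F) + max (κ(Y), Var)` for all fibrations `W → Y` with `κ(Y) ≥ 0` in the first case, and in the
second case for all those whose fibres are not of general type; if `F` is of general type then it is the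
theorem of Kollár, which is not formalised. The existence of a good minimal model of `F` is not assumed.
With the best `N` the bound for the degree `r` is of the order of `b d ^ 2` (`b = b_0 ... b_(k - 1)`) for
towers over hypersurfaces of degree `d`, and of the order of `b m ^ 2` for towers over coverings of
complete intersections.

Proof. By theorems of helper260 (`Pool/Agent/Run7/h260/TW/*`, handed in for the abundance conjecture
as `MP_5ff3c6_ag.ImagesOfTowers` and `MP_9a2ae6_ag.ImagesOfProductTowers`) `W` is uniruled or of general
type (for product towers: or `κ(W) ≥ dim W - 1`). If `κ(Y) ≥ 0` and `K_F` is pseudo-effective then `W` is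
not uniruled (`Pool/Agent/R882/UC.lean`).
-/

set_option autoImplicit false
set_option linter.overlappingInstances false

open FF Module Pool.Agent.W602.GT
open Pool.Agent.W619.PQ (IsUniruled)
open Pool.Agent.Run7.h260.TW (Tower ProductTower)

namespace Pool.Agent.Results.MP_5c318e_ag.ImagesOfTowers

/-- The Kodaira dimension of the smooth projective varieties of dimension `n` over `k` with the
function field `K` is at least `h`. -/
def KappaGe (k K : Type) [Field k] [Field K] [Algebra k K] (n h : ℕ) : Prop :=
  KodGe k K n (fun _ => False) h

/-- The canonical divisor of the smooth projective varieties of dimension `n` over `k` with the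
function field `K` is pseudo-effective. -/
def IsPseudoEffective (k K : Type) [Field k] [Field K] [Algebra k K] (n : ℕ) : Prop :=
  Psef k K n (fun _ => False)

theorem kappa_of_gt {n : ℕ} {L : Type} [Field L] [Algebra ℂ L] (h : GeneralType ℂ L n) :
    KappaGe ℂ L n n := by
  obtain ⟨-, N, hN, ω, h1, h2, D, h3, h4⟩ := h
  exact ⟨N, hN, ω, fun j => ⟨h1 j, fun P hP D hD => h2 P hP j D fun i =>
    Pool.Agent.TH466.QG.derReg_of_log (hD i), fun P hP _ => h2 P hP j⟩, D, h3, h4⟩

/-- **Viehweg's inequality for the fibrations of the images of towers.** Let `K` be the function field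
of the first variety `V` of a tower, or a product tower, of dimension `n ≥ 1`, and let `V ⇢ W` be a
dominant rational map of degree `r`, `L` the function field of `W`. Let `W ⇢ Y` be a dominant rational
map, given by the subfield `E` of `L`, with `κ(Y) ≥ 0`, `d = dim Y`, and `F` its generic fibre, a
variety of dimension `f` over the field `E` with the function field `L`.
(1) If the tower has the bound `2 r` then `κ(W) ≥ κ(F) + dim Y`, and `W` is of general type if `K_F` is
pseudo-effective. (2) If the product tower has the bound `2 r` then `κ(W) ≥ κ(F) + dim Y`, or `F` is of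
general type. -/
theorem result {n : ℕ} (hn : 1 ≤ n) {K : Type} [Field K] [Algebra ℂ K] [Algebra.EssFiniteType ℂ K]
    (hK : Algebra.trdeg ℂ K = n) (L : Type) [Field L] [Algebra ℂ L] [Algebra L K]
    [IsScalarTower ℂ L K] [FiniteDimensional L K] (E : IntermediateField ℂ L)
    [Algebra.EssFiniteType ℂ E] {d f : ℕ} (hd : Algebra.trdeg ℂ E = d)
    (hf : Algebra.trdeg E L = f) (hY : KappaGe ℂ E d 0) :
    (Tower 3 n (fun E _ _ => IsUniruled ℂ E n) K (2 * Module.finrank L K) →
      (IsPseudoEffective E L f → GeneralType ℂ L n) ∧
      ∀ q : ℕ, KappaGe E L f q → KappaGe ℂ L n (q + d)) ∧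
    (ProductTower 3 n K (2 * Module.finrank L K) →
      (IsPseudoEffective E L f → KappaGe ℂ L n (n - 1)) ∧
      ∀ q : ℕ, KappaGe E L f q → KappaGe ℂ L n (q + d) ∨ q = f) := by
  have hL : Algebra.trdeg ℂ L = (n : ℕ) := Pool.Agent.Y184.NT.trdeg_below (K := K) hK
  have hessL : Algebra.EssFiniteType ℂ L := Pool.Agent.TH466.QG.ess_below (K := K)
  have hdf : d + f = n := by
    have h3 := trdeg_add_eq ℂ E (A := L)
    rw [hd, hf, hL] at h3
    exact_mod_cast h3
  have hkey : IsPseudoEffective E L f → ¬ IsUniruled ℂ L n :=
    fun h4 h5 => Pool.Agent.R882.UA.fib_not hL h5 E hd hf hY h4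
  have hps : ∀ q : ℕ, KappaGe E L f q → IsPseudoEffective E L f := fun q h =>
    psef_of_kodGe (Pool.Agent.R882.UA.kod_mono h (Nat.zero_le _))
  refine ⟨fun h => ?_, fun h => ?_⟩
  · have h1 := Pool.Agent.Run7.h260.TW.gt_uniruled L hn hK le_rfl le_rfl h
    have h2 : ¬ GeneralType ℂ L n ↔ IsUniruled ℂ L n := h1.out 0 4
    have h3 : IsPseudoEffective E L f → GeneralType ℂ L n := fun h4 => by
      by_contra h5
      exact hkey h4 (h2.1 h5)
    refine ⟨h3, fun q hq => ?_⟩
    have h5 : q ≤ f := Pool.Agent.R882.UA.kod_le_dim hf hq
    exact Pool.Agent.R882.UA.kod_mono (kappa_of_gt (h3 (hps q hq))) (by omega)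
  · have h1 := Pool.Agent.Run7.h260.TW.ptower_dich L hn hK le_rfl le_rfl h
    have h2 : KodGe ℂ L n (fun _ => False) (n - 1) ↔ ¬ IsUniruled ℂ L n := h1.out 1 2
    have h3 : IsPseudoEffective E L f → KappaGe ℂ L n (n - 1) := fun h4 => h2.2 (hkey h4)
    refine ⟨h3, fun q hq => ?_⟩
    have h5 : q ≤ f := Pool.Agent.R882.UA.kod_le_dim hf hq
    by_cases h8 : q = f
    · exact Or.inr h8
    · exact Or.inl (Pool.Agent.R882.UA.kod_mono (h3 (hps q hq)) (by omega))

end Pool.Agent.Results.MP_5c318e_ag.ImagesOfTowers
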